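import Mathlib

/-! # Smoothing a Bloch function with bounded derivative -/

open Complex Set Filter Topology

namespace Pool.Agent.H50.IH

lemma approx_bdd {r N : ℝ} (hr : 0 < r) {f₀ : ℂ → ℂ} (hf₀ : DifferentiableOn ℂ f₀ (Metric.ball 0 1))
    (h00 : f₀ 0 = 0)
    (hn : ∀ z ∈ Metric.ball (0 : ℂ) 1, (1 - ‖z‖ ^ 2) * ‖deriv f₀ z‖ ≤ r)
    (hN : ∀ z ∈ Metric.ball (0 : ℂ) 1, ‖deriv f₀ z‖ ≤ N)
    {ρ₀ : ℝ} (hρ₀ : ρ₀ < 1) {e : ℝ} (he : 0 < e) :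
    ∃ (f₁ : ℂ → ℂ) (r₁ : ℝ), r₁ < r ∧ f₁ 0 = 0 ∧
      (∀ z : ℂ, ‖z‖ ≤ 1 → DifferentiableAt ℂ f₁ z ∧ ‖deriv f₁ z‖ ≤ N ∧
        (1 - ‖z‖ ^ 2) * ‖deriv f₁ z‖ ≤ r₁) ∧
      ∀ z : ℂ, ‖z‖ ≤ ρ₀ → ‖f₁ z - f₀ z‖ < e := by
  have hsub : Metric.closedBall (0 : ℂ) ρ₀ ⊆ Metric.ball 0 1 :=
    Metric.closedBall_subset_ball hρ₀
  have hcont : ContinuousOn f₀ (Metric.closedBall (0 : ℂ) ρ₀) :=
    hf₀.continuousOn.mono hsub
  have hcomp := isCompact_closedBall (0 : ℂ) ρ₀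
  obtain ⟨M₀, hM₀⟩ := hcomp.exists_bound_of_continuousOn hcont
  have huc := hcomp.uniformContinuousOn_of_continuous hcont
  rw [Metric.uniformContinuousOn_iff] at huc
  obtain ⟨δ, hδ, huc⟩ := huc (e / 2) (by linarith)
  obtain ⟨ρ, hρ0, hρ1, hρδ⟩ : ∃ ρ : ℝ, 0 < ρ ∧ ρ < 1 ∧ 1 - ρ < δ := by
    refine ⟨max (1 / 2) (1 - δ / 2), ?_, ?_, ?_⟩
    · exact lt_of_lt_of_le (by norm_num) (le_max_left _ _)
    · exact max_lt (by norm_num) (by linarith)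
    · have := le_max_right (1 / 2 : ℝ) (1 - δ / 2)
      linarith
  obtain ⟨η, hη0, hη1, hη2⟩ : ∃ η : ℝ, 0 < η ∧ η ≤ 1 / 2 ∧ η * (|M₀| + 1) ≤ e / 2 := by
    have hp : 0 < |M₀| + 1 := by positivity
    refine ⟨min (1 / 2) (e / 2 / (|M₀| + 1)), lt_min (by norm_num) (by positivity),
      min_le_left _ _, ?_⟩
    rw [← le_div_iff₀ hp]
    exact min_le_right _ _
  have hmem : ∀ z : ℂ, ‖z‖ ≤ 1 → (ρ : ℂ) * z ∈ Metric.ball (0 : ℂ) 1 ∧ ‖(ρ : ℂ) * z‖ = ρ * ‖z‖ := by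
    intro z hz
    have e1 : ‖(ρ : ℂ) * z‖ = ρ * ‖z‖ := by
      rw [norm_mul, norm_real, Real.norm_eq_abs, abs_of_pos hρ0]
    refine ⟨?_, e1⟩
    rw [mem_ball_zero_iff, e1]
    nlinarith [norm_nonneg z]
  have hder : ∀ z : ℂ, ‖z‖ ≤ 1 → HasDerivAt (fun z => (1 - η : ℂ) * f₀ ((ρ : ℂ) * z))
      ((1 - η : ℂ) * (deriv f₀ ((ρ : ℂ) * z) * ρ)) z := by
    intro z hz
    have h1 : HasDerivAt (fun z : ℂ => (ρ : ℂ) * z) (ρ : ℂ) z := by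
      simpa using (hasDerivAt_id z).const_mul (ρ : ℂ)
    have h2 : HasDerivAt f₀ (deriv f₀ ((ρ : ℂ) * z)) ((ρ : ℂ) * z) :=
      (hf₀.differentiableAt (Metric.isOpen_ball.mem_nhds (hmem z hz).1)).hasDerivAt
    exact (h2.comp z h1).const_mul _
  have hη : ‖(1 - η : ℂ)‖ = 1 - η := by
    have : (1 - η : ℂ) = ((1 - η : ℝ) : ℂ) := by push_cast; ring
    rw [this, norm_real, Real.norm_eq_abs, abs_of_pos (by linarith)]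
  have hnd : ∀ z : ℂ, ‖z‖ ≤ 1 → ‖deriv (fun z => (1 - η : ℂ) * f₀ ((ρ : ℂ) * z)) z‖ =
      (1 - η) * (ρ * ‖deriv f₀ ((ρ : ℂ) * z)‖) := by
    intro z hz
    rw [(hder z hz).deriv, norm_mul, hη, norm_mul, norm_real, Real.norm_eq_abs, abs_of_pos hρ0]
    ring
  refine ⟨fun z => (1 - η : ℂ) * f₀ ((ρ : ℂ) * z), (1 - η) * r,
    by nlinarith, by simp [h00], ?_, ?_⟩
  · intro z hz
    refine ⟨(hder z hz).differentiableAt, ?_, ?_⟩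
    · rw [hnd z hz]
      refine le_trans ?_ (hN _ (hmem z hz).1)
      have hd := norm_nonneg (deriv f₀ ((ρ : ℂ) * z))
      have h6 : ρ * ‖deriv f₀ ((ρ : ℂ) * z)‖ ≤ ‖deriv f₀ ((ρ : ℂ) * z)‖ := by nlinarith
      have h7 : 0 ≤ ρ * ‖deriv f₀ ((ρ : ℂ) * z)‖ := by positivity
      nlinarith
    · rw [hnd z hz]
      have h1 := hn _ (hmem z hz).1
      rw [(hmem z hz).2] at h1
      have hd := norm_nonneg (deriv f₀ ((ρ : ℂ) * z))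
      have hz0 := norm_nonneg z
      have h2 : (1 - ‖z‖ ^ 2) * ρ ≤ 1 - (ρ * ‖z‖) ^ 2 := by
        have e1 : 1 - (ρ * ‖z‖) ^ 2 - (1 - ‖z‖ ^ 2) * ρ = (1 - ρ) * (1 + ρ * ‖z‖ ^ 2) := by ring
        have e2 : 0 ≤ (1 - ρ) * (1 + ρ * ‖z‖ ^ 2) :=
          mul_nonneg (by linarith) (by positivity)
        linarith
      calc (1 - ‖z‖ ^ 2) * ((1 - η) * (ρ * ‖deriv f₀ ((ρ : ℂ) * z)‖))
          = (1 - η) * (((1 - ‖z‖ ^ 2) * ρ) * ‖deriv f₀ ((ρ : ℂ) * z)‖) := by ring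
        _ ≤ (1 - η) * ((1 - (ρ * ‖z‖) ^ 2) * ‖deriv f₀ ((ρ : ℂ) * z)‖) := by
            apply mul_le_mul_of_nonneg_left _ (by linarith)
            exact mul_le_mul_of_nonneg_right h2 hd
        _ ≤ (1 - η) * r := mul_le_mul_of_nonneg_left h1 (by linarith)
  · intro z hz
    have hz1 : z ∈ Metric.closedBall (0 : ℂ) ρ₀ := by rwa [mem_closedBall_zero_iff]
    have hz' : ‖z‖ ≤ 1 := by linarith
    have hz2 : (ρ : ℂ) * z ∈ Metric.closedBall (0 : ℂ) ρ₀ := by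
      rw [mem_closedBall_zero_iff, (hmem z hz').2]
      nlinarith [norm_nonneg z]
    have hdist : dist ((ρ : ℂ) * z) z < δ := by
      rw [dist_eq_norm]
      have e1 : (ρ : ℂ) * z - z = -(((1 - ρ : ℝ) : ℂ) * z) := by push_cast; ring
      rw [e1, norm_neg, norm_mul, norm_real, Real.norm_eq_abs, abs_of_pos (by linarith)]
      nlinarith [norm_nonneg z]
    have h1 := huc _ hz2 _ hz1 hdist
    rw [dist_eq_norm] at h1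
    have h2 := hM₀ _ hz2
    have h3 : (1 - η : ℂ) * f₀ ((ρ : ℂ) * z) - f₀ z =
        (f₀ ((ρ : ℂ) * z) - f₀ z) - (η : ℂ) * f₀ ((ρ : ℂ) * z) := by ring
    show ‖(1 - η : ℂ) * f₀ ((ρ : ℂ) * z) - f₀ z‖ < e
    rw [h3]
    have h4 : ‖(η : ℂ) * f₀ ((ρ : ℂ) * z)‖ ≤ e / 2 := by
      rw [norm_mul, norm_real, Real.norm_eq_abs, abs_of_pos hη0]
      have h5 : ‖f₀ ((ρ : ℂ) * z)‖ ≤ |M₀| + 1 := by
        have := le_abs_self M₀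
        linarith
      calc η * ‖f₀ ((ρ : ℂ) * z)‖ ≤ η * (|M₀| + 1) := mul_le_mul_of_nonneg_left h5 hη0.le
        _ ≤ e / 2 := hη2
    have h6 := norm_sub_le (f₀ ((ρ : ℂ) * z) - f₀ z) ((η : ℂ) * f₀ ((ρ : ℂ) * z))
    linarith

end Pool.Agent.H50.IH
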