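import Mathlib
import Pool.Agent.H50.IS.Defs

/-!
# Bounded excess: definitions

The folds of `Pool.Agent.H50.IS`, with a correction `cor` which removes the linear term at `0` of
the logarithm of the derivative, so that the larger scales do not disturb the smaller ones.
-/

open Complex Set Filter Topology

namespace Pool.Agent.H50.IH

open Pool.Agent.H50.IS (Fold y K)

/-- the correction -/
noncomputable def cor (κ : ℂ) (ε : ℝ) (z : ℂ) : ℂ := -κ * z / (1 + z / (ε : ℂ)) ^ 2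

/-- its derivative -/
noncomputable def cor' (κ : ℂ) (ε : ℝ) (z : ℂ) : ℂ :=
  -κ * (1 - z / (ε : ℂ)) / (1 + z / (ε : ℂ)) ^ 3

/-- What is needed for the value. -/
structure SeqV (C₁ δ : ℝ) (b φ g : ℕ → ℂ → ℂ) (ζ : ℕ → ℂ) (a s : ℕ → ℝ) : Prop where
  fold : ∀ n, Fold C₁ (a n) (b n) (φ n) (g n) (ζ n)
  s_pos : ∀ n, 0 < s n
  a_pos : ∀ n, 0 < a n
  a_le : ∀ n, a n ≤ δ
  s_le : ∀ n, s n ≤ δ
  s_succ : ∀ n, s (n + 1) ≤ y a s n ^ 2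

/-- the size of the corrections -/
noncomputable def eps (C₁ : ℝ) (a s : ℕ → ℝ) (n : ℕ) : ℝ := (a n ^ 2 * s n) ^ 2 / (100 * C₁ ^ 2)

/-- Folds at the scales `s n` with `a n = Λ M₀ (s n)`. -/
structure Seq (C₁ Λ δ M₀ : ℝ) (b φ g : ℕ → ℂ → ℂ) (ζ : ℕ → ℂ) (a s M L : ℕ → ℝ) : Prop
    extends SeqV C₁ δ b φ g ζ a s where
  lip : ∀ n z, 0 ≤ z.re → ‖φ n z - φ n 0‖ ≤ C₁ / a n ^ 4 * ‖z‖
  a_eq : ∀ n, a n = Λ * M₀ * s n
  M_zero : M 0 = 0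
  L_zero : L 0 = 0
  M_succ : ∀ n, M (n + 1) = M n + 2 * C₁ / (a n ^ 2 * s n)
  L_succ : ∀ n, L (n + 1) = L n + (C₁ / (a n ^ 4 * s n ^ 2) +
    8 * (C₁ / (a n ^ 2 * s n)) / eps C₁ a s n)
  s_M : ∀ n, s n * M n ≤ 1
  s_L : ∀ n, 8 * C₁ * s n * L n ≤ 1

/-- the corrected term -/
noncomputable def term (C₁ : ℝ) (b φ : ℕ → ℂ → ℂ) (a s : ℕ → ℝ) (m : ℕ) (z : ℂ) : ℂ :=
  b m (z / (s m : ℂ)) + cor (φ m 0 / (s m : ℂ)) (eps C₁ a s m) z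

/-- its derivative -/
noncomputable def term' (C₁ : ℝ) (φ : ℕ → ℂ → ℂ) (a s : ℕ → ℝ) (m : ℕ) (z : ℂ) : ℂ :=
  φ m (z / (s m : ℂ)) / (s m : ℂ) + cor' (φ m 0 / (s m : ℂ)) (eps C₁ a s m) z

/-- The sum over all scales. -/
noncomputable def B (C₁ : ℝ) (b φ : ℕ → ℂ → ℂ) (a s : ℕ → ℝ) (z : ℂ) : ℂ :=
  ∑' m, term C₁ b φ a s m z

/-- The derivative of the sum. -/
noncomputable def B' (C₁ : ℝ) (φ : ℕ → ℂ → ℂ) (a s : ℕ → ℝ) (z : ℂ) : ℂ :=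
  ∑' m, term' C₁ φ a s m z

end Pool.Agent.H50.IH
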