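import Mathlib
import Pool.Agent.H50.IH.Defs

/-!
# The correction: elementary bounds
-/

open Complex Set Filter Topology

namespace Pool.Agent.H50.IH

theorem cor_u {u : ℂ} (hu : 0 ≤ u.re) :
    1 ≤ ‖1 + u‖ ∧ ‖u‖ ≤ ‖1 + u‖ ∧ ‖1 - u‖ ≤ ‖1 + u‖ := by
  have h1 : ‖1 + u‖ ^ 2 = 1 + 2 * u.re + ‖u‖ ^ 2 := by
    rw [← Complex.normSq_eq_norm_sq, ← Complex.normSq_eq_norm_sq, Complex.normSq_apply,
      Complex.normSq_apply, add_re, add_im, one_re, one_im]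
    ring
  have h2 : ‖1 - u‖ ^ 2 = 1 - 2 * u.re + ‖u‖ ^ 2 := by
    rw [← Complex.normSq_eq_norm_sq, ← Complex.normSq_eq_norm_sq, Complex.normSq_apply,
      Complex.normSq_apply, sub_re, sub_im, one_re, one_im]
    ring
  have h3 := norm_nonneg u
  have h4 := norm_nonneg (1 + u)
  refine ⟨?_, ?_, ?_⟩
  · refine le_of_sq_le_sq ?_ h4
    nlinarith
  · refine le_of_sq_le_sq ?_ h4
    nlinarith
  · refine le_of_sq_le_sq ?_ h4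
    nlinarith

theorem cor_re {ε : ℝ} (hε : 0 < ε) {z : ℂ} (hz : 0 ≤ z.re) : 0 ≤ (z / (ε : ℂ)).re := by
  rw [div_ofReal_re]
  exact div_nonneg hz hε.le

theorem cor_norm {ε : ℝ} (hε : 0 < ε) (z : ℂ) : ‖z‖ = ε * ‖z / (ε : ℂ)‖ := by
  rw [norm_div, norm_real, Real.norm_eq_abs, abs_of_pos hε]
  field_simp

theorem cor_ne {ε : ℝ} (hε : 0 < ε) {z : ℂ} (hz : 0 ≤ z.re) : 1 + z / (ε : ℂ) ≠ 0 := by
  have h := (cor_u (cor_re hε hz)).1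
  intro h0
  rw [h0, norm_zero] at h
  linarith

theorem cor_zero (κ : ℂ) (ε : ℝ) : cor κ ε 0 = 0 := by simp [cor]

theorem hasDerivAt_cor (κ : ℂ) {ε : ℝ} (hε : 0 < ε) {z : ℂ} (hz : 0 ≤ z.re) :
    HasDerivAt (cor κ ε) (cor' κ ε z) z := by
  have h0 := cor_ne hε hz
  have hne : (ε : ℂ) ≠ 0 := ofReal_ne_zero.2 hε.ne'
  have h1 : HasDerivAt (fun z : ℂ => -κ * z) (-κ) z := by
    simpa using (hasDerivAt_id z).const_mul (-κ)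
  have h2 : HasDerivAt (fun z : ℂ => 1 + z / (ε : ℂ)) (1 / (ε : ℂ)) z :=
    ((hasDerivAt_id z).div_const (ε : ℂ)).const_add 1
  have h3 : HasDerivAt (fun z : ℂ => (1 + z / (ε : ℂ)) ^ 2)
      (2 * (1 + z / (ε : ℂ)) * (1 / (ε : ℂ))) z := by
    simpa using h2.fun_pow 2
  refine (h1.fun_div h3 (pow_ne_zero 2 h0)).congr_deriv ?_
  unfold cor'
  have h4 : (ε : ℂ) + z ≠ 0 := by
    intro h5
    apply h0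
    field_simp
    rw [h5, mul_zero]
  field_simp
  ring

theorem norm_cor_le (κ : ℂ) {ε : ℝ} (hε : 0 < ε) {z : ℂ} (hz : 0 ≤ z.re) :
    ‖cor κ ε z‖ ≤ ‖κ‖ * ε := by
  obtain ⟨h1, h2, -⟩ := cor_u (cor_re hε hz)
  have hD : 0 < ‖1 + z / (ε : ℂ)‖ := by linarith
  unfold cor
  rw [norm_div, norm_mul, norm_neg, norm_pow, div_le_iff₀ (by positivity), mul_assoc]
  refine mul_le_mul_of_nonneg_left ?_ (norm_nonneg _)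
  rw [cor_norm hε z]
  refine mul_le_mul_of_nonneg_left ?_ hε.le
  nlinarith

theorem norm_cor_far (κ : ℂ) {ε : ℝ} (hε : 0 < ε) {z : ℂ} (hz : 0 < z.re) :
    ‖cor κ ε z‖ ≤ ‖κ‖ * ε ^ 2 / ‖z‖ := by
  obtain ⟨h1, h2, -⟩ := cor_u (cor_re hε hz.le)
  have hD : 0 < ‖1 + z / (ε : ℂ)‖ := by linarith
  have hz0 : 0 < ‖z‖ := lt_of_lt_of_le hz (re_le_norm z)
  have hn := cor_norm hε z
  have hu := norm_nonneg (z / (ε : ℂ))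
  unfold cor
  rw [norm_div, norm_mul, norm_neg, norm_pow, div_le_div_iff₀ (by positivity) hz0]
  have h3 : ‖z‖ * ‖z‖ ≤ ε ^ 2 * ‖1 + z / (ε : ℂ)‖ ^ 2 := by
    calc ‖z‖ * ‖z‖ = ε ^ 2 * ‖z / (ε : ℂ)‖ ^ 2 := by rw [hn]; ring
      _ ≤ _ := mul_le_mul_of_nonneg_left (pow_le_pow_left₀ hu h2 2) (by positivity)
  calc ‖κ‖ * ‖z‖ * ‖z‖ = ‖κ‖ * (‖z‖ * ‖z‖) := by ring
    _ ≤ ‖κ‖ * (ε ^ 2 * ‖1 + z / (ε : ℂ)‖ ^ 2) := mul_le_mul_of_nonneg_left h3 (norm_nonneg _)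
    _ = ‖κ‖ * ε ^ 2 * ‖1 + z / (ε : ℂ)‖ ^ 2 := by ring

theorem norm_cor'_le (κ : ℂ) {ε : ℝ} (hε : 0 < ε) {z : ℂ} (hz : 0 ≤ z.re) :
    ‖cor' κ ε z‖ ≤ ‖κ‖ := by
  obtain ⟨h1, -, h3⟩ := cor_u (cor_re hε hz)
  have hD : 0 < ‖1 + z / (ε : ℂ)‖ := by linarith
  unfold cor'
  rw [norm_div, norm_mul, norm_neg, norm_pow, div_le_iff₀ (by positivity)]
  refine mul_le_mul_of_nonneg_left (h3.trans ?_) (norm_nonneg _)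
  calc ‖1 + z / (ε : ℂ)‖ = ‖1 + z / (ε : ℂ)‖ ^ 1 := (pow_one _).symm
    _ ≤ ‖1 + z / (ε : ℂ)‖ ^ 3 := pow_le_pow_right₀ h1 (by norm_num)

theorem norm_cor'_far (κ : ℂ) {ε : ℝ} (hε : 0 < ε) {z : ℂ} (hz : 0 < z.re) :
    ‖cor' κ ε z‖ ≤ ‖κ‖ * ε ^ 2 / ‖z‖ ^ 2 := by
  obtain ⟨h1, h2, h3⟩ := cor_u (cor_re hε hz.le)
  have hD : 0 < ‖1 + z / (ε : ℂ)‖ := by linarith
  have hz0 : 0 < ‖z‖ := lt_of_lt_of_le hz (re_le_norm z)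
  have hn := cor_norm hε z
  have hu := norm_nonneg (z / (ε : ℂ))
  unfold cor'
  rw [norm_div, norm_mul, norm_neg, norm_pow, div_le_div_iff₀ (by positivity) (by positivity)]
  have h4 : ‖1 - z / (ε : ℂ)‖ * ‖z‖ ^ 2 ≤ ε ^ 2 * ‖1 + z / (ε : ℂ)‖ ^ 3 := by
    calc ‖1 - z / (ε : ℂ)‖ * ‖z‖ ^ 2 = ε ^ 2 * (‖1 - z / (ε : ℂ)‖ * ‖z / (ε : ℂ)‖ ^ 2) := by
          rw [hn]; ring
      _ ≤ ε ^ 2 * (‖1 + z / (ε : ℂ)‖ * ‖1 + z / (ε : ℂ)‖ ^ 2) := by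
          refine mul_le_mul_of_nonneg_left ?_ (by positivity)
          exact mul_le_mul h3 (pow_le_pow_left₀ hu h2 2) (by positivity) hD.le
      _ = ε ^ 2 * ‖1 + z / (ε : ℂ)‖ ^ 3 := by ring
  calc ‖κ‖ * ‖1 - z / (ε : ℂ)‖ * ‖z‖ ^ 2 = ‖κ‖ * (‖1 - z / (ε : ℂ)‖ * ‖z‖ ^ 2) := by ring
    _ ≤ ‖κ‖ * (ε ^ 2 * ‖1 + z / (ε : ℂ)‖ ^ 3) := mul_le_mul_of_nonneg_left h4 (norm_nonneg _)
    _ = ‖κ‖ * ε ^ 2 * ‖1 + z / (ε : ℂ)‖ ^ 3 := by ring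

theorem norm_cor'_add (κ : ℂ) {ε : ℝ} (hε : 0 < ε) {z : ℂ} (hz : 0 ≤ z.re) :
    ‖cor' κ ε z + κ‖ ≤ 8 * ‖κ‖ / ε * ‖z‖ := by
  obtain ⟨h1, h2, -⟩ := cor_u (cor_re hε hz)
  have hD : 0 < ‖1 + z / (ε : ℂ)‖ := by linarith
  have h0 := cor_ne hε hz
  have hn := cor_norm hε z
  unfold cor'
  set u : ℂ := z / (ε : ℂ) with hu
  have hu0 := norm_nonneg u
  have e1 : -κ * (1 - u) / (1 + u) ^ 3 + κ = κ * u * (4 + 3 * u + u ^ 2) / (1 + u) ^ 3 := by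
    field_simp
    ring
  rw [e1, norm_div, norm_mul, norm_mul, norm_pow, div_le_iff₀ (by positivity)]
  have h4 : ‖4 + 3 * u + u ^ 2‖ ≤ 8 * ‖1 + u‖ ^ 3 := by
    have h5 : ‖4 + 3 * u + u ^ 2‖ ≤ 4 + 3 * ‖u‖ + ‖u‖ ^ 2 := by
      refine (norm_add₃_le).trans ?_
      rw [norm_mul, norm_pow]
      norm_num
    have h6 : (1 : ℝ) ≤ ‖1 + u‖ ^ 3 := one_le_pow₀ h1
    have h7 : ‖1 + u‖ ≤ ‖1 + u‖ ^ 3 := by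
      calc ‖1 + u‖ = ‖1 + u‖ ^ 1 := (pow_one _).symm
        _ ≤ _ := pow_le_pow_right₀ h1 (by norm_num)
    have h8 : ‖1 + u‖ ^ 2 ≤ ‖1 + u‖ ^ 3 := pow_le_pow_right₀ h1 (by norm_num)
    have h9 : ‖u‖ ^ 2 ≤ ‖1 + u‖ ^ 2 := pow_le_pow_left₀ hu0 h2 2
    linarith
  have e2 : 8 * ‖κ‖ / ε * ‖z‖ * ‖1 + u‖ ^ 3 = ‖κ‖ * ‖u‖ * (8 * ‖1 + u‖ ^ 3) := by
    rw [hn]
    field_simp
  rw [e2]
  exact mul_le_mul_of_nonneg_left h4 (by positivity)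

end Pool.Agent.H50.IH
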