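import Mathlib
import Pool.Agent.H50.IH.Defs

/-! # Bounded excess: existence of the scales -/

open Complex Set Filter Topology

namespace Pool.Agent.H50.IH

open Pool.Agent.H50.IS (Fold y K)

/-- the bound for the next scale -/
noncomputable def bd (C₁ Λ δ M₀ a₀ : ℝ) (M L : ℝ) : ℝ :=
  min (min δ (min δ a₀ / (Λ * M₀))) (min (1 / (M + 1)) (1 / (8 * C₁ * (L + 1))))

/-- one step of the recursion for the triples `(s, M, L)` -/
noncomputable def stp (C₁ Λ δ M₀ a₀ : ℝ) (p : ℝ × ℝ × ℝ) : ℝ × ℝ × ℝ :=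
  let a := Λ * M₀ * p.1
  let M' := p.2.1 + 2 * C₁ / (a ^ 2 * p.1)
  let L' := p.2.2 + (C₁ / (a ^ 4 * p.1 ^ 2) +
    8 * (C₁ / (a ^ 2 * p.1)) / ((a ^ 2 * p.1) ^ 2 / (100 * C₁ ^ 2)))
  (min (bd C₁ Λ δ M₀ a₀ M' L') ((p.1 * a ^ 3) ^ 2), M', L')

/-- the triples -/
noncomputable def trp (C₁ Λ δ M₀ a₀ : ℝ) : ℕ → ℝ × ℝ × ℝ
  | 0 => (bd C₁ Λ δ M₀ a₀ 0 0, 0, 0)
  | (n + 1) => stp C₁ Λ δ M₀ a₀ (trp C₁ Λ δ M₀ a₀ n)

theorem exists_seq {C₁ a₀ : ℝ} (hC₁ : 100 ≤ C₁) (ha₀ : 0 < a₀)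
    (hF : ∀ a, 0 < a → a ≤ a₀ → ∃ (β φ g : ℂ → ℂ) (ζ : ℂ), Fold C₁ a β φ g ζ ∧
      ∀ z, 0 ≤ z.re → ‖φ z - φ 0‖ ≤ C₁ / a ^ 4 * ‖z‖)
    {Λ δ M₀ : ℝ} (hΛ : 1 ≤ Λ) (hδ : 0 < δ) (hM₀ : 1 ≤ M₀) :
    ∃ (b φ g : ℕ → ℂ → ℂ) (ζ : ℕ → ℂ) (a s M L : ℕ → ℝ),
      Seq C₁ Λ δ M₀ b φ g ζ a s M L := by
  have hC0 : 0 < C₁ := by linarith
  have hΛM : 0 < Λ * M₀ := by positivity
  have hmin : 0 < min δ a₀ := lt_min hδ ha₀
  have hbpos : ∀ M L, 0 ≤ M → 0 ≤ L → 0 < bd C₁ Λ δ M₀ a₀ M L := by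
    intro M L hM hL
    exact lt_min (lt_min hδ (by positivity)) (lt_min (by positivity) (by positivity))
  set s : ℕ → ℝ := fun n => (trp C₁ Λ δ M₀ a₀ n).1 with hs
  set M : ℕ → ℝ := fun n => (trp C₁ Λ δ M₀ a₀ n).2.1 with hM
  set L : ℕ → ℝ := fun n => (trp C₁ Λ δ M₀ a₀ n).2.2 with hL
  set a : ℕ → ℝ := fun n => Λ * M₀ * s n with ha
  have hMs : ∀ n, M (n + 1) = M n + 2 * C₁ / (a n ^ 2 * s n) := fun n => rfl
  have hLs : ∀ n, L (n + 1) = L n + (C₁ / (a n ^ 4 * s n ^ 2) +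
    8 * (C₁ / (a n ^ 2 * s n)) / eps C₁ a s n) := fun n => rfl
  have hss : ∀ n, s (n + 1) =
    min (bd C₁ Λ δ M₀ a₀ (M (n + 1)) (L (n + 1))) ((s n * a n ^ 3) ^ 2) := fun n => rfl
  have hinv : ∀ n, 0 < s n ∧ 0 ≤ M n ∧ 0 ≤ L n := by
    intro n
    induction n with
    | zero => exact ⟨hbpos 0 0 le_rfl le_rfl, le_rfl, le_rfl⟩
    | succ n ih =>
      obtain ⟨h1, h2, h3⟩ := ih
      have ha0 : 0 < a n := by
        simp only [ha]
        positivity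
      have h4 : 0 ≤ M (n + 1) := by
        rw [hMs]
        positivity
      have h5 : 0 ≤ L (n + 1) := by
        rw [hLs, eps]
        positivity
      refine ⟨?_, h4, h5⟩
      rw [hss]
      exact lt_min (hbpos _ _ h4 h5) (by positivity)
  have hsm : ∀ n, s n ≤ bd C₁ Λ δ M₀ a₀ (M n) (L n) := by
    intro n
    cases n with
    | zero => exact le_rfl
    | succ n => rw [hss]; exact min_le_left _ _
  have hs1 : ∀ n, s n ≤ δ := fun n =>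
    (hsm n).trans ((min_le_left _ _).trans (min_le_left _ _))
  have hs2 : ∀ n, a n ≤ min δ a₀ := fun n => by
    have h1 : s n ≤ min δ a₀ / (Λ * M₀) :=
      (hsm n).trans ((min_le_left _ _).trans (min_le_right _ _))
    rw [le_div_iff₀ hΛM] at h1
    simp only [ha]
    linarith
  have hs3 : ∀ n, s n * M n ≤ 1 := fun n => by
    have h1 : s n ≤ 1 / (M n + 1) :=
      (hsm n).trans ((min_le_right _ _).trans (min_le_left _ _))
    have h2 := (hinv n).2.1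
    have h3 := (hinv n).1
    rw [le_div_iff₀ (by positivity)] at h1
    nlinarith
  have hs4 : ∀ n, 8 * C₁ * s n * L n ≤ 1 := fun n => by
    have h1 : s n ≤ 1 / (8 * C₁ * (L n + 1)) :=
      (hsm n).trans ((min_le_right _ _).trans (min_le_right _ _))
    have h2 := (hinv n).2.2
    have h3 := (hinv n).1
    rw [le_div_iff₀ (by positivity)] at h1
    have : 0 < C₁ * s n := by positivity
    nlinarith
  have ha0 : ∀ n, 0 < a n := fun n => by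
    have h1 := (hinv n).1
    simp only [ha]
    positivity
  choose b φ g ζ hfold using fun n => hF (a n) (ha0 n) ((hs2 n).trans (min_le_right _ _))
  refine ⟨b, φ, g, ζ, a, s, M, L, ⟨⟨fun n => (hfold n).1, fun n => (hinv n).1, ha0,
    fun n => (hs2 n).trans (min_le_left _ _), hs1, fun n => ?_⟩,
    fun n => (hfold n).2, fun n => rfl, rfl, rfl, hMs, hLs, hs3, hs4⟩⟩
  rw [hss]
  exact min_le_right _ _

end Pool.Agent.H50.IH
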