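import Pool.Agent.H50.IH.LipA

/-!
# The sharp fold with a Lipschitz bound (F2)
-/

open Complex Set Filter Topology
open Pool.Agent.H51.Becker

namespace Pool.Agent.H50.IH

open Pool.Agent.H50.IV
open Pool.Agent.H50.IS

/-- the derivative of `phi` -/
noncomputable def phi' (e P : ℂ) : ℂ :=
  -(1 + e) * (e * exp (-inv P) / ((1 + -(e * exp (-inv P))) ^ 2 * (1 + exp (inv P)) ^ 3) +
    2 * exp (inv P) / ((1 + -(e * exp (-inv P))) * (1 + exp (inv P)) ^ 4))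

lemma hasDerivAt_phi {e P : ℂ} (he : ‖e‖ ≤ 1 / 10) (hP : -1 < P.re) :
    HasDerivAt (phi e) (phi' e P) P := by
  have hτ := inv_mem hP
  have hL : Lam (inv P) = P := Lam_inv hP
  have hre : -1 < (Lam (inv P)).re := by rw [hL]; exact hP
  have h1 := slitPlane_ne_zero (slit_e he hre)
  have h3 := one_add_exp_ne_zero hτ
  have d0 := hasDerivAt_inv hP
  have d1 := d0.fun_neg.cexp
  have d2 := (d1.const_mul e).fun_neg.const_add 1
  have d3 := (d0.cexp.const_add 1).fun_pow 2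
  have h4 : (1 + -(e * exp (-inv P))) * (1 + exp (inv P)) ^ 2 ≠ 0 :=
    mul_ne_zero h1 (pow_ne_zero 2 h3)
  have d4 := (hasDerivAt_const P (1 + e)).fun_div (d2.fun_mul d3) h4
  refine d4.congr_deriv ?_
  rw [phi']
  set A := 1 + -(e * exp (-inv P)) with hA
  set D := 1 + exp (inv P) with hD
  push_cast
  field_simp
  ring

lemma norm_phi'_le {a : ℝ} {e P : ℂ} (ha : 0 < a) (ha' : a ≤ 1 / 50) (he : ‖e‖ ≤ a)
    (hP : -1 < P.re) (hD : a / 2 ≤ ‖1 + exp (inv P)‖)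
    (hW : 9 / 10 ≤ ‖1 + -(e * exp (-inv P))‖) (h1e : ‖1 + e‖ ≤ 11 / 10) :
    ‖phi' e P‖ ≤ 200 / a ^ 4 := by
  have hL : Lam (inv P) = P := Lam_inv hP
  have hv5 := norm_exp_neg_lt (τ := inv P) (by rw [hL]; exact hP)
  set D : ℝ := ‖1 + exp (inv P)‖ with hDdef
  set W : ℝ := ‖1 + -(e * exp (-inv P))‖ with hWdef
  have hD0 : 0 < D := by linarith
  have hW0 : 0 < W := by linarith
  have hom : ‖exp (inv P)‖ ≤ D + 1 := by
    calc ‖exp (inv P)‖ = ‖(1 + exp (inv P)) - 1‖ := by ring_nf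
      _ ≤ ‖1 + exp (inv P)‖ + ‖(1 : ℂ)‖ := norm_sub_le _ _
      _ = _ := by rw [norm_one]
  have hev : ‖e * exp (-inv P)‖ ≤ 1 / 10 := by
    rw [norm_mul]
    have h1 : ‖e‖ ≤ 1 / 50 := he.trans ha'
    calc ‖e‖ * ‖exp (-inv P)‖ ≤ 1 / 50 * 5 := by gcongr
      _ = 1 / 10 := by norm_num
  -- powers of `1 / D`
  have hq : 1 / D ≤ 2 / a := by
    rw [div_le_div_iff₀ hD0 ha]; linarith
  have hq0 : 0 < 1 / D := by positivity
  have h2a : 1 ≤ 2 / a := by rw [le_div_iff₀ ha]; linarith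
  have hq3 : 1 / D ^ 3 ≤ 8 / a ^ 3 := by
    calc 1 / D ^ 3 = (1 / D) ^ 3 := by rw [div_pow, one_pow]
      _ ≤ (2 / a) ^ 3 := by gcongr
      _ = 8 / a ^ 3 := by rw [div_pow]; norm_num
  have hq4 : 1 / D ^ 4 ≤ 16 / a ^ 4 := by
    calc 1 / D ^ 4 = (1 / D) ^ 4 := by rw [div_pow, one_pow]
      _ ≤ (2 / a) ^ 4 := by gcongr
      _ = 16 / a ^ 4 := by rw [div_pow]; norm_num
  have hq34 : 8 / a ^ 3 ≤ 8 / a ^ 4 := by
    rw [div_le_div_iff₀ (by positivity) (by positivity)]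
    have : a ^ 4 = a * a ^ 3 := by ring
    have h3 : 0 < a ^ 3 := by positivity
    nlinarith
  have hT1 : ‖e * exp (-inv P) / ((1 + -(e * exp (-inv P))) ^ 2 * (1 + exp (inv P)) ^ 3)‖ ≤
      2 / a ^ 4 := by
    rw [norm_div, norm_mul ((1 + -(e * exp (-inv P))) ^ 2), norm_pow, norm_pow, ← hDdef, ← hWdef]
    have h1 : 1 / 2 * D ^ 3 ≤ W ^ 2 * D ^ 3 := by
      have : 1 / 2 ≤ W ^ 2 := by nlinarith
      gcongr
    have h2 : ‖e * exp (-inv P)‖ / (W ^ 2 * D ^ 3) ≤ (1 / 10) / (1 / 2 * D ^ 3) := by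
      gcongr
    have h3 : (1 / 10 : ℝ) / (1 / 2 * D ^ 3) = 1 / 5 * (1 / D ^ 3) := by
      field_simp; norm_num
    have h4 : 1 / 5 * (1 / D ^ 3) ≤ 1 / 5 * (8 / a ^ 4) := by
      have := hq3.trans hq34
      gcongr
    have h5 : 1 / 5 * (8 / a ^ 4) ≤ 2 / a ^ 4 := by
      have : 1 / 5 * (8 / a ^ 4) = (8 / 5) / a ^ 4 := by ring
      rw [this]
      gcongr
      norm_num
    rw [h3] at h2
    linarith
  have hT2 : ‖2 * exp (inv P) / ((1 + -(e * exp (-inv P))) * (1 + exp (inv P)) ^ 4)‖ ≤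
      100 / a ^ 4 := by
    rw [norm_div, norm_mul (1 + -(e * exp (-inv P))), norm_pow, norm_mul, ← hDdef, ← hWdef]
    have hn2 : ‖(2 : ℂ)‖ = 2 := by simp
    rw [hn2]
    have h1 : 9 / 10 * D ^ 4 ≤ W * D ^ 4 := by gcongr
    have h2 : 2 * ‖exp (inv P)‖ / (W * D ^ 4) ≤ 2 * (D + 1) / (9 / 10 * D ^ 4) := by gcongr
    have h3 : 2 * (D + 1) / (9 / 10 * D ^ 4) = 20 / 9 * (1 / D ^ 3 + 1 / D ^ 4) := by
      field_simp
      ring
    rw [h3] at h2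
    have h4 : 20 / 9 * (1 / D ^ 3 + 1 / D ^ 4) ≤ 20 / 9 * (8 / a ^ 4 + 16 / a ^ 4) := by
      have := hq3.trans hq34
      gcongr
    have h5 : 20 / 9 * (8 / a ^ 4 + 16 / a ^ 4) ≤ 100 / a ^ 4 := by
      have : 20 / 9 * (8 / a ^ 4 + 16 / a ^ 4) = (160 / 3) / a ^ 4 := by ring
      rw [this]
      gcongr
      norm_num
    linarith
  rw [phi', norm_mul, norm_neg]
  have hsum := norm_add_le
    (e * exp (-inv P) / ((1 + -(e * exp (-inv P))) ^ 2 * (1 + exp (inv P)) ^ 3))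
    (2 * exp (inv P) / ((1 + -(e * exp (-inv P))) * (1 + exp (inv P)) ^ 4))
  have h102 : 2 / a ^ 4 + 100 / a ^ 4 = 102 / a ^ 4 := by ring
  calc ‖1 + e‖ * ‖e * exp (-inv P) / ((1 + -(e * exp (-inv P))) ^ 2 * (1 + exp (inv P)) ^ 3) +
        2 * exp (inv P) / ((1 + -(e * exp (-inv P))) * (1 + exp (inv P)) ^ 4)‖
      ≤ 11 / 10 * (102 / a ^ 4) := by
        gcongr
        linarith
    _ = (1122 / 10) / a ^ 4 := by ring
    _ ≤ 200 / a ^ 4 := by gcongr; norm_num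

/-- F2: the fold with a Lipschitz bound for `φ`. -/
theorem fold_lip : ∃ C₁ : ℝ, 100 ≤ C₁ ∧ ∃ a₀ > 0, ∀ a, 0 < a → a ≤ a₀ →
    ∃ (β φ g : ℂ → ℂ) (ζ : ℂ), Fold C₁ a β φ g ζ ∧
      ∀ z, 0 ≤ z.re → ‖φ z - φ 0‖ ≤ C₁ / a ^ 4 * ‖z‖ := by
  refine ⟨200, by norm_num, 1 / 50, by norm_num, fun a ha ha' => ?_⟩
  refine ⟨_, _, _, _, fold_explicit ha ha', ?_⟩
  obtain ⟨hm0, hma⟩ := mm_bounds ha ha'
  have hcos1 : Real.cos a < 1 := (cos_bound ha (by linarith)).2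
  have hP2 : (Lam (T2 a)).re = -Real.cos a := Lam_T2_re a
  have hP' : ∀ z : ℂ, 0 ≤ z.re → -1 < (z + Lam (T2 a)).re := by
    intro z hz
    rw [add_re, hP2]
    linarith
  have hcore : ∀ z : ℂ, 0 ≤ z.re → ‖ee a‖ = mm a ∧
      a / 2 ≤ ‖1 + exp (inv (z + Lam (T2 a)))‖ ∧
      9 / 10 ≤ ‖1 + -(ee a * exp (-inv (z + Lam (T2 a))))‖ ∧ ‖1 + ee a‖ ≤ 11 / 10 := by
    intro z hz
    obtain ⟨h1, -, h2, h3, h4, -⟩ := core (x := z.re) (e := ee a) (τ := inv (z + Lam (T2 a)))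
      ha ha' hm0 hma rfl hz (by rw [Lam_inv (hP' z hz), add_re, hP2]; ring)
    exact ⟨h1, h2, h3, h4⟩
  have hea : ‖ee a‖ ≤ a := by
    rw [(hcore 0 (by simp)).1]; exact hma
  have he10 : ‖ee a‖ ≤ 1 / 10 := by linarith
  intro z hz
  have hconv : Convex ℝ {z : ℂ | 0 ≤ z.re} := by
    have := convex_halfSpace_ge (𝕜 := ℝ) (f := Complex.re)
      (IsLinearMap.mk Complex.add_re (fun c x => by simp)) 0
    exact this
  have key := hconv.norm_image_sub_le_of_norm_hasDerivWithin_le (𝕜 := ℂ)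
    (f := fun z => phi (ee a) (z + Lam (T2 a))) (f' := fun z => phi' (ee a) (z + Lam (T2 a)))
    (C := 200 / a ^ 4) (x := 0) (y := z)
    (fun w hw => ((hasDerivAt_phi he10 (hP' w hw)).comp_add_const w (Lam (T2 a))).hasDerivWithinAt)
    (fun w hw => by
      obtain ⟨-, h2, h3, h4⟩ := hcore w hw
      exact norm_phi'_le ha ha' hea (hP' w hw) h2 h3 h4)
    (show (0 : ℝ) ≤ (0 : ℂ).re from le_rfl) hz
  rw [sub_zero] at key
  exact key

end Pool.Agent.H50.IH
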