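import Mathlib
import Pool.Agent.H50.IH.Lip
import Pool.Agent.H50.IH.Norm
import Pool.Agent.H50.IH.Value
import Pool.Agent.H50.IH.Exists
import Pool.Agent.H50.IH.Approx

/-! # Bounded excess: the final theorem -/

open Complex Set Filter Topology

namespace Pool.Agent.H50.IH

open Pool.Agent.H50.IS (Fold y K)

/-- A set which comes arbitrarily close to a point outside it is infinite. -/
lemma infinite_of_close {S : Set ℂ} (hS : ∀ z ∈ S, z ≠ 1)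
    (h : ∀ e > 0, ∃ z ∈ S, ‖1 - z‖ < e) : S.Infinite := by
  intro hfin
  obtain ⟨z₁, hz₁, -⟩ := h 1 one_pos
  obtain ⟨z₀, hz₀, hmin⟩ := hfin.exists_minimalFor (fun z => ‖1 - z‖) S ⟨z₁, hz₁⟩
  have hpos : 0 < ‖1 - z₀‖ := by
    rw [norm_pos_iff]
    intro h0
    exact hS z₀ hz₀ (by linear_combination -h0)
  obtain ⟨z, hz, hlt⟩ := h _ hpos
  have h4 := hmin hz hlt.le
  simp only at h4
  linarith

/-! ### The map `U z = (1 - z) / (1 + z)` -/

/-- the map between the disc and the half plane -/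
noncomputable def U (z : ℂ) : ℂ := (1 - z) / (1 + z)

lemma norm_add_pos {z : ℂ} (hz : ‖z‖ < 1) : 0 < ‖1 + z‖ := by
  have := norm_sub_norm_le (1 : ℂ) (-z)
  rw [norm_one, norm_neg, sub_neg_eq_add] at this
  linarith

lemma norm_add_le_two {z : ℂ} (hz : ‖z‖ < 1) : ‖1 + z‖ ≤ 2 := by
  have := norm_add_le (1 : ℂ) z
  rw [norm_one] at this
  linarith

lemma U_re (z : ℂ) : (U z).re = (1 - ‖z‖ ^ 2) / ‖1 + z‖ ^ 2 := by
  rw [U, Complex.div_re, ← add_div, ← Complex.normSq_eq_norm_sq, ← Complex.normSq_eq_norm_sq,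
    Complex.normSq_apply z]
  congr 1
  simp only [sub_re, one_re, add_re, sub_im, one_im, add_im]
  ring

lemma U_re_pos {z : ℂ} (hz : ‖z‖ < 1) : 0 < (U z).re := by
  rw [U_re]
  have h1 := norm_add_pos hz
  have : 0 < 1 - ‖z‖ ^ 2 := by nlinarith [norm_nonneg z]
  positivity

lemma norm_U (z : ℂ) : ‖U z‖ = ‖1 - z‖ / ‖1 + z‖ := by rw [U, norm_div]

lemma one_le_norm_add {v : ℂ} (hv : 0 < v.re) : 1 ≤ ‖1 + v‖ := by
  have h1 : (1 + v).re ≤ ‖1 + v‖ := (le_abs_self _).trans (abs_re_le_norm _)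
  rw [add_re, one_re] at h1
  linarith

lemma add_ne {v : ℂ} (hv : 0 < v.re) : 1 + v ≠ 0 := by
  have := one_le_norm_add hv
  intro h
  rw [h, norm_zero] at this
  linarith

lemma norm_U_lt {v : ℂ} (hv : 0 < v.re) : ‖U v‖ < 1 := by
  have h0 := one_le_norm_add hv
  rw [norm_U, div_lt_one (by linarith)]
  have h1 : ‖1 - v‖ ^ 2 < ‖1 + v‖ ^ 2 := by
    rw [← Complex.normSq_eq_norm_sq, ← Complex.normSq_eq_norm_sq, Complex.normSq_apply,
      Complex.normSq_apply]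
    simp only [sub_re, one_re, add_re, sub_im, one_im, add_im]
    nlinarith
  exact lt_of_pow_lt_pow_left₀ 2 (norm_nonneg _) h1

lemma U_U {v : ℂ} (hv : 1 + v ≠ 0) : U (U v) = v := by
  rw [U, U]
  have h1 : 1 + (1 - v) / (1 + v) = 2 / (1 + v) := by field_simp; ring
  have h2 : 1 - (1 - v) / (1 + v) = 2 * v / (1 + v) := by field_simp; ring
  rw [h1, h2]
  field_simp

lemma hasDerivAt_U {z : ℂ} (hz : 1 + z ≠ 0) : HasDerivAt U (-2 / (1 + z) ^ 2) z := by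
  have h1 : HasDerivAt (fun z : ℂ => 1 - z) (-1) z := by
    simpa using (hasDerivAt_id z).const_sub 1
  have h2 : HasDerivAt (fun z : ℂ => 1 + z) 1 z := by
    simpa using (hasDerivAt_id z).const_add 1
  refine (h1.div h2 hz).congr_deriv ?_
  congr 1
  ring

lemma norm_U_deriv (z : ℂ) :
    (1 - ‖z‖ ^ 2) * ‖-2 / (1 + z) ^ 2‖ = 2 * (U z).re := by
  rw [U_re, norm_div, norm_neg, norm_pow]
  have : ‖(2 : ℂ)‖ = 2 := by simp
  rw [this]
  ring

lemma U_sub_one {v : ℂ} (hv : 0 < v.re) : ‖U v - 1‖ ≤ 2 * ‖v‖ := by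
  have h0 := one_le_norm_add hv
  have h1 : U v - 1 = -(2 * v) / (1 + v) := by
    rw [U]
    have := add_ne hv
    field_simp
    ring
  rw [h1, norm_div, norm_neg, norm_mul]
  have : ‖(2 : ℂ)‖ = 2 := by simp
  rw [this, div_le_iff₀ (by linarith)]
  nlinarith [norm_nonneg v]

section

variable {C₁ Λ δ M₀ : ℝ} {b φ g : ℕ → ℂ → ℂ} {ζ : ℕ → ℂ} {a s M L : ℕ → ℝ}
  (S : Seq C₁ Λ δ M₀ b φ g ζ a s M L) (hC₁ : 100 ≤ C₁) (hδ : δ ≤ 1 / (10000 * C₁ ^ 4))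

include S hC₁ hδ in
lemma Seq.hasDerivAt_B' {z : ℂ} (hz : 0 < z.re) :
    HasDerivAt (B C₁ b φ a s) (B' C₁ φ a s z) z := by
  obtain ⟨n, hn, -⟩ := S.exists_y hC₁ hδ hz
  exact S.hasDerivAt_B hC₁ hδ hz hn

end

/-- Density with bounded excess, for a smooth function `f₁`. -/
theorem dense_aux {C₁ a₀ : ℝ} (hC₁ : 100 ≤ C₁) (ha₀ : 0 < a₀)
    (hF : ∀ a, 0 < a → a ≤ a₀ → ∃ (β φ g : ℂ → ℂ) (ζ : ℂ), Fold C₁ a β φ g ζ ∧
      ∀ z, 0 ≤ z.re → ‖φ z - φ 0‖ ≤ C₁ / a ^ 4 * ‖z‖)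
    {r r₁ N : ℝ} (hr : 1 < r) (hr₁ : r₁ < r) (hN : 0 ≤ N) {f₁ : ℂ → ℂ}
    (h10 : f₁ 0 = 0) (h1 : ∀ z : ℂ, ‖z‖ ≤ 1 → DifferentiableAt ℂ f₁ z ∧ ‖deriv f₁ z‖ ≤ N ∧
        (1 - ‖z‖ ^ 2) * ‖deriv f₁ z‖ ≤ r₁)
    {ρ₀ : ℝ} (hρ₀ : ρ₀ < 1) {e : ℝ} (he : 0 < e) :
    ∃ f g : ℂ → ℂ, DifferentiableOn ℂ f (Metric.ball 0 1) ∧
    f 0 = 0 ∧ g 0 = 0 ∧ (∀ z ∈ Metric.ball (0 : ℂ) 1, HasDerivAt g (exp (f z)) z) ∧
    (∃ r' < r, ∀ z ∈ Metric.ball (0 : ℂ) 1, (1 - ‖z‖ ^ 2) * ‖deriv f z‖ ≤ r') ∧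
    (∀ z ∈ Metric.ball (0 : ℂ) 1, (1 - ‖z‖ ^ 2) * ‖deriv f z‖ ≤
      1 + (14 + 16000 * 2 * C₁ ^ 5 + 64 * C₁) * (1 + N) * (1 - ‖z‖)) ∧
    (∀ z : ℂ, ‖z‖ ≤ ρ₀ → ‖f z - f₁ z‖ < e) ∧
    ∃ w : ℂ, {z ∈ Metric.ball (0 : ℂ) 1 | g z = w}.Infinite := by
  have hC0 : 0 < C₁ := by linarith
  set η : ℝ := (r - 1) / 4 with hη
  have hη0 : 0 < η := by rw [hη]; linarith
  set Λ : ℝ := 4000 * C₁ ^ 4 with hΛdef
  have hC4 : 1 ≤ C₁ ^ 4 := one_le_pow₀ (by linarith)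
  have hΛ : 1 ≤ Λ := by rw [hΛdef]; linarith
  set M₀ : ℝ := 2 * N + 4 with hM₀
  have hM₀1 : 1 ≤ M₀ := by rw [hM₀]; linarith
  set C₂ : ℝ := 6 + C₁ * Λ * M₀ + 32 * C₁ with hC₂
  have hC₂0 : 0 < C₂ := by positivity
  set δ' : ℝ := η / (2 * (N + 1)) with hδ'
  have hδ'0 : 0 < δ' := by positivity
  have hδN : 2 * δ' * N ≤ η := by
    have : 2 * δ' * N = η * (N / (N + 1)) := by
      rw [hδ']; field_simp
    rw [this]
    have : N / (N + 1) ≤ 1 := by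
      rw [div_le_one (by linarith)]; linarith
    nlinarith
  have hρ1 : 0 < 1 - ρ₀ := by linarith
  have hrr : 0 < r - r₁ := by linarith
  obtain ⟨δ, hδ0, hδ1, hδ2, hδ3, hδ4, hδ5, hδ6⟩ : ∃ δ : ℝ, 0 < δ ∧ δ ≤ 1 / (10000 * C₁ ^ 4) ∧
      δ ≤ η / (16 * C₁ * C₂) ∧ δ ≤ (r - r₁) * δ' / (32 * C₁) ∧ δ ≤ δ' / (16 * C₁) ∧
      δ ≤ e * (1 - ρ₀) / (32 * C₁) ∧ δ ≤ (1 - ρ₀) / (16 * C₁) := by
    have a1 : 0 < 1 / (10000 * C₁ ^ 4) := by positivity
    have a2 : 0 < η / (16 * C₁ * C₂) := by positivity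
    have a3 : 0 < (r - r₁) * δ' / (32 * C₁) := by positivity
    have a4 : 0 < δ' / (16 * C₁) := by positivity
    have a5 : 0 < e * (1 - ρ₀) / (32 * C₁) := by positivity
    have a6 : 0 < (1 - ρ₀) / (16 * C₁) := by positivity
    refine ⟨min (min (min (1 / (10000 * C₁ ^ 4)) (η / (16 * C₁ * C₂)))
      (min ((r - r₁) * δ' / (32 * C₁)) (δ' / (16 * C₁))))
      (min (e * (1 - ρ₀) / (32 * C₁)) ((1 - ρ₀) / (16 * C₁))),
      lt_min (lt_min (lt_min a1 a2) (lt_min a3 a4)) (lt_min a5 a6), ?_, ?_, ?_, ?_, ?_, ?_⟩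
    · exact ((min_le_left _ _).trans (min_le_left _ _)).trans (min_le_left _ _)
    · exact ((min_le_left _ _).trans (min_le_left _ _)).trans (min_le_right _ _)
    · exact ((min_le_left _ _).trans (min_le_right _ _)).trans (min_le_left _ _)
    · exact ((min_le_left _ _).trans (min_le_right _ _)).trans (min_le_right _ _)
    · exact (min_le_right _ _).trans (min_le_left _ _)
    · exact (min_le_right _ _).trans (min_le_right _ _)
  obtain ⟨b, φ, gf, ζ, a, s, M, L, S⟩ := exists_seq hC₁ ha₀ hF hΛ hδ0 hM₀1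
  have hs0 := S.s_pos 0
  have hsδ := S.s_le 0
  have hCδ := C1_mul_δ hC₁ hδ1 hδ0.le
  -- the function
  set k₀ : ℂ := B C₁ b φ a s 1 with hk₀
  set f : ℂ → ℂ := fun z => f₁ z + (B C₁ b φ a s (U z) - k₀) with hf
  have hU0 : U 0 = 1 := by simp [U]
  have hadd : ∀ z : ℂ, ‖z‖ < 1 → 1 + z ≠ 0 := fun z hz => norm_pos_iff.1 (norm_add_pos hz)
  have hdf : ∀ z : ℂ, ‖z‖ < 1 →
      HasDerivAt f (deriv f₁ z + B' C₁ φ a s (U z) * (-2 / (1 + z) ^ 2)) z := by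
    intro z hz
    have h2 := ((S.hasDerivAt_B' hC₁ hδ1 (U_re_pos hz)).comp z
      (hasDerivAt_U (hadd z hz))).sub_const k₀
    exact (h1 z hz.le).1.hasDerivAt.add h2
  have hone : ∀ z : ℂ, ‖z‖ < 1 → 0 ≤ 1 - ‖z‖ ^ 2 := fun z hz => by
    nlinarith [norm_nonneg z]
  have htot : ∀ z : ℂ, ‖z‖ < 1 → (1 - ‖z‖ ^ 2) * ‖deriv f z‖ ≤
      (1 - ‖z‖ ^ 2) * ‖deriv f₁ z‖ + 2 * (U z).re * ‖B' C₁ φ a s (U z)‖ := by
    intro z hz
    rw [(hdf z hz).deriv]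
    have h2 := mul_le_mul_of_nonneg_left
      (norm_add_le (deriv f₁ z) (B' C₁ φ a s (U z) * (-2 / (1 + z) ^ 2))) (hone z hz)
    rw [mul_add, norm_mul] at h2
    have h3 := norm_U_deriv z
    have h4 : (1 - ‖z‖ ^ 2) * (‖B' C₁ φ a s (U z)‖ * ‖-2 / (1 + z) ^ 2‖) =
        2 * (U z).re * ‖B' C₁ φ a s (U z)‖ := by rw [← h3]; ring
    rw [h4] at h2
    exact h2
  -- the primitive
  have hfd : DifferentiableOn ℂ f (Metric.ball 0 1) := by
    intro z hz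
    have hz' : ‖z‖ < 1 := by simpa using hz
    exact (hdf z hz').differentiableAt.differentiableWithinAt
  have hE : DifferentiableOn ℂ (fun z => exp (f z)) (Metric.ball (0 : ℂ) 1) := hfd.cexp
  obtain ⟨g₀, hg₀⟩ := hE.isExactOn_ball
  set g : ℂ → ℂ := fun z => g₀ z - g₀ 0 with hg
  have hgd : ∀ z ∈ Metric.ball (0 : ℂ) 1, HasDerivAt g (exp (f z)) z := fun z hz =>
    (hg₀ z hz).sub_const _
  -- the smooth perturbation
  have hsmooth : ∀ v : ℂ, 0 < v.re → ‖v‖ ≤ 1 / 2 →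
      ‖(f₁ (U v) - 2 * log (1 + v)) - f₁ 1‖ ≤ (2 * N + 3) * ‖v‖ := by
    intro v hv hv2
    have e1 : ‖f₁ (U v) - f₁ 1‖ ≤ N * ‖U v - 1‖ := by
      refine (convex_closedBall (0 : ℂ) 1).norm_image_sub_le_of_norm_deriv_le (f := f₁)
        (fun x hx => (h1 x (by simpa using hx)).1) (fun x hx => (h1 x (by simpa using hx)).2.1)
        (by simp) ?_
      rw [mem_closedBall_zero_iff]
      exact (norm_U_lt hv).le
    have e2 := U_sub_one hv
    have e3 := Complex.norm_log_one_add_half_le_self hv2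
    have e4 : (f₁ (U v) - 2 * log (1 + v)) - f₁ 1 = (f₁ (U v) - f₁ 1) - 2 * log (1 + v) := by ring
    have e5 : ‖2 * log (1 + v)‖ ≤ 3 * ‖v‖ := by
      rw [norm_mul]
      have : ‖(2 : ℂ)‖ = 2 := by simp
      rw [this]
      linarith
    rw [e4]
    have e6 := norm_sub_le (f₁ (U v) - f₁ 1) (2 * log (1 + v))
    have e7 : N * ‖U v - 1‖ ≤ N * (2 * ‖v‖) := mul_le_mul_of_nonneg_left e2 hN
    linarith
  have hsn1 : ∀ n, C₁ * s n ≤ 1 / 10000 := fun n => by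
    have := S.s_le n
    nlinarith
  have hpert : ∀ n v, 0 < v.re → y a s n / 2 ≤ ‖v‖ → ‖v‖ ≤ 1 / 2 → ∀ X : ℝ,
      ‖B C₁ b φ a s v - K b n - b n (v / (s n : ℂ))‖ ≤ X →
      ‖(B C₁ b φ a s v + (f₁ (U v) - 2 * log (1 + v))) - f₁ 1 - K b n - b n (v / (s n : ℂ))‖ ≤
        X + (2 * N + 3) * ‖v‖ := by
    intro n v hv hy hv2 X e1
    have e2 := hsmooth v hv hv2
    have e3 : (B C₁ b φ a s v + (f₁ (U v) - 2 * log (1 + v))) - f₁ 1 - K b n -
        b n (v / (s n : ℂ)) = (B C₁ b φ a s v - K b n - b n (v / (s n : ℂ))) +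
          ((f₁ (U v) - 2 * log (1 + v)) - f₁ 1) := by
      ring
    rw [e3]
    have e4 := norm_add_le (B C₁ b φ a s v - K b n - b n (v / (s n : ℂ)))
      ((f₁ (U v) - 2 * log (1 + v)) - f₁ 1)
    linarith
  -- the value
  have hval := value_sharp hC₁ hδ1 S.toSeqV (fun v => B C₁ b φ a s v + (f₁ (U v) - 2 * log (1 + v)))
    (fun v => (-(1 / 2) * exp k₀) * g (U v)) (f₁ 1) ?_ ?_ ?_
  rotate_left
  · intro n v hv hy hvs
    have e0 := hsn1 n
    have e1 := hpert n v hv hy (by linarith) _ (S.region_fine hC₁ hδ1 hv hy)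
    refine e1.trans ?_
    have hsn := S.s_pos n
    have han := S.a_pos n
    have hLn := S.L_nonneg hC0 n
    have e2 : L n * ‖v‖ ^ 2 ≤ ‖v‖ := by
      have h1 := S.s_L n
      have h2 : L n * ‖v‖ ≤ L n * (2 * C₁ * s n) := by gcongr
      have h3 : L n * ‖v‖ ≤ 1 := by nlinarith
      nlinarith [norm_nonneg v]
    have e2' : ‖v‖ * M₀ ≤ 2 * C₁ * s n * M₀ := by gcongr
    have e3 : 2 * C₁ * s n * M₀ = a n / (2000 * C₁ ^ 3) := by
      rw [S.a_eq n, hΛdef]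
      field_simp
      norm_num
    have e4 : a n ^ 2 * s n / (100 * C₁) + 8 * C₁ * y a s n ≤ a n / (2000 * C₁ ^ 3) := by
      rw [le_div_iff₀ (by positivity), y]
      have h3 := C_mul_δ hC₁ hδ1
      have h4 : C₁ ^ 4 * s n ≤ 1 / 10000 := by
        have : C₁ ^ 4 * s n ≤ C₁ ^ 4 * δ := by
          gcongr
          exact S.s_le n
        linarith
      have h5 := S.a_le_one hC₁ hδ1 n
      have h6 : a n ^ 2 ≤ 1 / 1000 := by
        calc a n ^ 2 ≤ a n ^ 1 := pow_le_pow_of_le_one han.le (by linarith) (by norm_num)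
          _ = a n := pow_one _
          _ ≤ 1 / 1000 := h5
      have h7 : C₁ ^ 2 * s n ≤ 1 / 10000 := by
        have : C₁ ^ 2 ≤ C₁ ^ 4 := pow_le_pow_right₀ (by linarith) (by norm_num)
        nlinarith
      calc (a n ^ 2 * s n / (100 * C₁) + 8 * C₁ * (s n * a n ^ 3)) * (2000 * C₁ ^ 3) =
            20 * (C₁ ^ 2 * s n) * a n * a n + 16000 * (C₁ ^ 4 * s n) * a n ^ 2 * a n := by
            field_simp
            ring
        _ ≤ 20 * (1 / 10000) * (1 / 1000) * a n + 16000 * (1 / 10000) * (1 / 1000) * a n := by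
            gcongr
        _ ≤ a n := by linarith
    have e5 : a n / (1000 * C₁ ^ 3) = a n / (2000 * C₁ ^ 3) + a n / (2000 * C₁ ^ 3) := by
      field_simp
      norm_num
    have e6 : ‖v‖ + (2 * N + 3) * ‖v‖ = ‖v‖ * M₀ := by rw [hM₀]; ring
    linarith
  · intro n v hv hy hvs
    have e1 := S.yM_le' hC₁ hδ1 n
    have e2 := S.C1_y_le hC₁ hδ1 (n + 1)
    have e3 := S.C1_y_le hC₁ hδ1 n
    have e4 := S.y_pos_s n
    have e5 := hpert (n + 1) v hv hy (by nlinarith) _ (S.region hC₁ hδ1 hv hy)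
    have e6 := S.M_nonneg hC0.le (n + 1)
    have e7 : ‖v‖ * M (n + 1) ≤ y a s n * M (n + 1) := by gcongr
    have e8 : (2 * N + 3) * ‖v‖ ≤ 1 / 1000 := by
      have g1 : (2 * N + 3) * ‖v‖ ≤ M₀ * s n := by
        have := S.y_le_s hC₁ hδ1 n
        have := S.s_pos n
        have g2 : ‖v‖ ≤ s n := by linarith
        have g3 : 2 * N + 3 ≤ M₀ := by rw [hM₀]; linarith
        exact mul_le_mul g3 g2 (norm_nonneg _) (by linarith)
      have g4 : M₀ * s n ≤ a n := by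
        rw [S.a_eq n]
        have : 0 < M₀ * s n := by
          have := S.s_pos n
          positivity
        nlinarith
      have g5 := S.a_le_one hC₁ hδ1 n
      linarith
    have e9 : a (n + 1) ^ 2 * s (n + 1) / (100 * C₁) ≤ 1 / 1000 := by
      have g1 := S.p_pos (n + 1)
      have g2 := S.p_le hC₁ hδ1 (n + 1)
      have g3 := S.s_le_one hC₁ hδ1 (n + 1)
      have g4 : a (n + 1) ^ 2 * s (n + 1) / (100 * C₁) ≤ a (n + 1) ^ 2 * s (n + 1) :=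
        div_le_self g1.le (by linarith)
      linarith
    linarith
  · intro v hv hv1
    have hne := add_ne hv
    have h2 := ((hgd _ (by rw [mem_ball_zero_iff]; exact norm_U_lt hv)).comp v
      (hasDerivAt_U hne)).const_mul (-(1 / 2) * exp k₀)
    refine h2.congr_deriv ?_
    have e1 : f (U v) = (B C₁ b φ a s v + f₁ (U v)) - k₀ := by
      simp only [hf]
      rw [U_U hne]
      ring
    have e2 : exp (2 * log (1 + v)) = (1 + v) ^ 2 := by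
      rw [two_mul, exp_add, exp_log hne]
      ring
    have e3 : B C₁ b φ a s v + (f₁ (U v) - 2 * log (1 + v)) = (B C₁ b φ a s v + f₁ (U v)) - 2 * log (1 + v) := by
      ring
    rw [e1, e3, exp_sub, exp_sub, e2]
    have := exp_ne_zero k₀
    field_simp
  obtain ⟨w₀, hw₀⟩ := hval
  have hcne : (-(1 / 2) * exp k₀ : ℂ) ≠ 0 := mul_ne_zero (by norm_num) (exp_ne_zero _)
  refine ⟨f, g, hfd, ?_, ?_, hgd, ?_, ?_, ?_, ?_⟩
  · simp only [hf]
    rw [h10, hU0, hk₀]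
    ring
  · simp [hg]
  · refine ⟨max (1 + 2 * η) ((r + r₁) / 2), max_lt (by rw [hη]; linarith) (by linarith), ?_⟩
    intro z hz
    have hz' : ‖z‖ < 1 := by simpa using hz
    have hUp := U_re_pos hz'
    refine (htot z hz').trans ?_
    by_cases hcase : ‖1 - z‖ ≤ δ'
    · refine le_trans ?_ (le_max_left _ _)
      have e3 : (1 - ‖z‖ ^ 2) * ‖deriv f₁ z‖ ≤ 2 * δ' * N := by
        have e5 : 1 - ‖z‖ ≤ ‖1 - z‖ := by
          have := norm_sub_norm_le (1 : ℂ) z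
          rwa [norm_one] at this
        have e6 := (h1 z hz'.le).2.1
        have e7 : 1 - ‖z‖ ^ 2 ≤ 2 * δ' := by nlinarith [norm_nonneg z]
        exact mul_le_mul e7 e6 (norm_nonneg _) (by linarith)
      have e4 : 2 * (U z).re * ‖B' C₁ φ a s (U z)‖ ≤ 1 + η := by
        rcases S.norm_all hC₁ hδ1 hUp with h | ⟨n, hn, h⟩
        · linarith
        · refine h.trans ?_
          have g1 : (U z).re ≤ 16 * C₁ * s n :=
            ((le_abs_self _).trans (abs_re_le_norm _)).trans hn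
          have g2 := S.s_le n
          have g5 : C₂ * (U z).re ≤ C₂ * (16 * C₁ * s n) := by gcongr
          have g7 : C₂ * (16 * C₁ * s n) ≤ η := by
            rw [le_div_iff₀ (by positivity)] at hδ2
            have : C₂ * (16 * C₁ * s n) ≤ C₂ * (16 * C₁ * δ) := by gcongr
            linarith
          rw [← hC₂]
          linarith
      linarith
    · refine le_trans ?_ (le_max_right _ _)
      push Not at hcase
      have e1 := (h1 z hz'.le).2.2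
      have hp := norm_add_pos hz'
      have hp2 := norm_add_le_two hz'
      have hU : δ' / 2 ≤ ‖U z‖ := by
        rw [norm_U, le_div_iff₀ hp]
        nlinarith
      have hU8 : 8 * C₁ * s 0 ≤ ‖U z‖ := by
        rw [le_div_iff₀ (by positivity)] at hδ4
        nlinarith
      have e2 := S.norm_far hC₁ hδ1 hUp hU8
      rw [S.M_zero, mul_zero, zero_add] at e2
      have e3 : 8 * C₁ * s 0 / ‖U z‖ ≤ (r - r₁) / 2 := by
        rw [div_le_iff₀ (by linarith)]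
        rw [le_div_iff₀ (by positivity)] at hδ3
        nlinarith
      linarith
  · intro z hz
    have hz2 : ‖z‖ < 1 := by simpa using hz
    have hv : 0 < 1 - ‖z‖ := by linarith
    have hfinal : (2 * N + 2 * C₂) * (1 - ‖z‖) ≤
        (14 + 16000 * 2 * C₁ ^ 5 + 64 * C₁) * (1 + N) * (1 - ‖z‖) := by
      apply mul_le_mul_of_nonneg_right _ hv.le
      have g1 : 0 ≤ C₁ ^ 5 * N := by positivity
      have g2 : 0 ≤ C₁ * N := by positivity
      have g3 : 0 ≤ C₁ ^ 5 := by positivity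
      rw [hC₂, hΛdef, hM₀]
      nlinarith
    have hu : 1 - ‖z‖ ^ 2 ≤ 2 * (1 - ‖z‖) := by nlinarith [norm_nonneg z]
    have hM1 : (1 - ‖z‖ ^ 2) * ‖deriv f₁ z‖ ≤ 2 * (1 - ‖z‖) * N :=
      mul_le_mul hu (h1 z hz2.le).2.1 (norm_nonneg _) (by linarith)
    have hUp := U_re_pos hz2
    have e4 := htot z hz2
    rcases S.norm_all hC₁ hδ1 hUp with h | ⟨n, hn, h⟩
    · have : 0 ≤ C₂ * (1 - ‖z‖) := by positivity
      linarith
    · rw [← hC₂] at h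
      have hp := norm_add_pos hz2
      have hp2 := norm_add_le_two hz2
      have hsn := hsn1 n
      have g1 : ‖1 - z‖ ≤ 16 * C₁ * s n * ‖1 + z‖ := by
        rw [norm_U, div_le_iff₀ hp] at hn
        exact hn
      have g2 : (1 : ℝ) ≤ ‖1 + z‖ := by
        have : ‖(2 : ℂ)‖ ≤ ‖1 - z‖ + ‖1 + z‖ := by
          have e : (2 : ℂ) = (1 - z) + (1 + z) := by ring
          rw [e]
          exact norm_add_le _ _
        have h2 : ‖(2 : ℂ)‖ = 2 := by simp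
        rw [h2] at this
        nlinarith
      have g3 : (U z).re ≤ 2 * (1 - ‖z‖) := by
        rw [U_re]
        have : 1 ≤ ‖1 + z‖ ^ 2 := one_le_pow₀ g2
        refine (div_le_self (hone z hz2) this).trans hu
      have g8 : C₂ * (U z).re ≤ C₂ * (2 * (1 - ‖z‖)) := by gcongr
      linarith
  · intro z hz
    have hz' : ‖z‖ < 1 := by linarith
    have e1 : f z - f₁ z = B C₁ b φ a s (U z) - k₀ := by simp only [hf]; ring
    rw [e1]
    have hbb : ∀ y : ℂ, ‖y‖ ≤ ρ₀ → ‖B C₁ b φ a s (U y)‖ ≤ e / 4 := by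
      intro y hy
      have hy' : ‖y‖ < 1 := by linarith
      have hp := norm_add_pos hy'
      have hp2 := norm_add_le_two hy'
      have e2 : 1 - ρ₀ ≤ ‖1 - y‖ := by
        have := norm_sub_norm_le (1 : ℂ) y
        rw [norm_one] at this
        linarith
      have e3 : (1 - ρ₀) / 2 ≤ ‖U y‖ := by
        rw [norm_U, le_div_iff₀ hp]
        nlinarith
      have e4 : 8 * C₁ * s 0 ≤ ‖U y‖ := by
        rw [le_div_iff₀ (by positivity)] at hδ6
        nlinarith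
      refine (S.norm_B_far hC₁ hδ1 (U_re_pos hy') e4).trans ?_
      rw [div_le_iff₀ (by linarith)]
      rw [le_div_iff₀ (by positivity)] at hδ5
      nlinarith
    have e2 := hbb z hz
    have e3 : ‖k₀‖ ≤ e / 4 := by
      have := hbb 0 (by
        rw [norm_zero]
        exact (norm_nonneg z).trans hz)
      rwa [hU0] at this
    have e4 := norm_sub_le (B C₁ b φ a s (U z)) k₀
    linarith
  · refine ⟨w₀ / (-(1 / 2) * exp k₀), infinite_of_close ?_ ?_⟩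
    · rintro z ⟨hz, -⟩ rfl
      simp at hz
    · intro e' he'
      have hlim : Tendsto (fun n : ℕ => ((1 : ℝ) / 2) ^ n * (4 * C₁ * s 0)) atTop (𝓝 0) := by
        have := (tendsto_pow_atTop_nhds_zero_of_lt_one (r := (1 : ℝ) / 2) (by norm_num)
          (by norm_num)).mul_const (4 * C₁ * s 0)
        simpa using this
      obtain ⟨n, hn⟩ := (hlim.eventually (gt_mem_nhds he')).exists
      obtain ⟨v, hv, hvn, hGv⟩ := hw₀ n
      have h3 := S.s_add hC₁ hδ1 0 n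
      rw [add_zero] at h3
      have h4 := U_sub_one hv
      refine ⟨U v, ⟨?_, ?_⟩, ?_⟩
      · rw [mem_ball_zero_iff]
        exact norm_U_lt hv
      · rw [eq_div_iff hcne, mul_comm]
        exact hGv
      · rw [norm_sub_rev]
        have h5 : 4 * C₁ * s n ≤ 4 * C₁ * ((1 / 2) ^ n * s 0) := by gcongr
        nlinarith

/-- Density with bounded excess. -/
theorem dense_bounded : ∃ C₀ : ℝ, 0 < C₀ ∧ ∀ r : ℝ, 1 < r → ∀ N : ℝ, 0 ≤ N → ∀ f₀ : ℂ → ℂ,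
    DifferentiableOn ℂ f₀ (Metric.ball 0 1) → f₀ 0 = 0 →
    (∀ z ∈ Metric.ball (0 : ℂ) 1, (1 - ‖z‖ ^ 2) * ‖deriv f₀ z‖ ≤ r) →
    (∀ z ∈ Metric.ball (0 : ℂ) 1, ‖deriv f₀ z‖ ≤ N) →
    ∀ ρ₀ : ℝ, ρ₀ < 1 → ∀ e : ℝ, 0 < e →
    ∃ f g : ℂ → ℂ, DifferentiableOn ℂ f (Metric.ball 0 1) ∧
    f 0 = 0 ∧ g 0 = 0 ∧ (∀ z ∈ Metric.ball (0 : ℂ) 1, HasDerivAt g (exp (f z)) z) ∧
    (∃ r' < r, ∀ z ∈ Metric.ball (0 : ℂ) 1, (1 - ‖z‖ ^ 2) * ‖deriv f z‖ ≤ r') ∧
    (∀ z ∈ Metric.ball (0 : ℂ) 1,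
      (1 - ‖z‖ ^ 2) * ‖deriv f z‖ ≤ 1 + C₀ * (1 + N) * (1 - ‖z‖)) ∧
    (∀ z : ℂ, ‖z‖ ≤ ρ₀ → ‖f z - f₀ z‖ < e) ∧
    ∃ w : ℂ, {z ∈ Metric.ball (0 : ℂ) 1 | g z = w}.Infinite := by
  obtain ⟨C₁, hC₁, a₀, ha₀, hF⟩ := fold_lip
  refine ⟨14 + 16000 * 2 * C₁ ^ 5 + 64 * C₁, by positivity, ?_⟩
  intro r hr N hN0 f₀ hf₀ h00 hn hN ρ₀ hρ₀ e he
  obtain ⟨f₁, r₁, hr₁, h10, h1, hclose⟩ :=
    approx_bdd (by linarith : (0 : ℝ) < r) hf₀ h00 hn hN hρ₀ (half_pos he)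
  obtain ⟨f, g, a1, a2, a3, a4, a5, a6, a7, a8⟩ :=
    dense_aux hC₁ ha₀ hF hr hr₁ hN0 h10 h1 hρ₀ (half_pos he)
  refine ⟨f, g, a1, a2, a3, a4, a5, a6, fun z hz => ?_, a8⟩
  have e1 := a7 z hz
  have e2 := hclose z hz
  have e3 : f z - f₀ z = (f z - f₁ z) + (f₁ z - f₀ z) := by ring
  rw [e3]
  have := norm_add_le (f z - f₁ z) (f₁ z - f₀ z)
  linarith

end Pool.Agent.H50.IH
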