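import Mathlib
import Pool.Agent.H50.IH.Defs

/-! Plan (all statements). Not imported by anything. -/

open Complex Set Filter Topology

namespace Pool.Agent.H50.IH.Plan

open Pool.Agent.H50.IH
open Pool.Agent.H50.IS (Fold y K)

/-- F2 (helper91; file `Pool/Agent/H50/IH/Lip.lean`). -/
theorem fold_lip : ∃ C₁ : ℝ, 100 ≤ C₁ ∧ ∃ a₀ > 0, ∀ a, 0 < a → a ≤ a₀ →
    ∃ (β φ g : ℂ → ℂ) (ζ : ℂ), Fold C₁ a β φ g ζ ∧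
      ∀ z, 0 ≤ z.re → ‖φ z - φ 0‖ ≤ C₁ / a ^ 4 * ‖z‖ := by
  sorry

/-- C (helper7; file `Pool/Agent/H50/IH/Cor.lean`). -/
theorem cor_zero (κ : ℂ) (ε : ℝ) : cor κ ε 0 = 0 := by sorry

theorem hasDerivAt_cor (κ : ℂ) {ε : ℝ} (hε : 0 < ε) {z : ℂ} (hz : 0 ≤ z.re) :
    HasDerivAt (cor κ ε) (cor' κ ε z) z := by sorry

theorem norm_cor_le (κ : ℂ) {ε : ℝ} (hε : 0 < ε) {z : ℂ} (hz : 0 ≤ z.re) :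
    ‖cor κ ε z‖ ≤ ‖κ‖ * ε := by sorry

theorem norm_cor_far (κ : ℂ) {ε : ℝ} (hε : 0 < ε) {z : ℂ} (hz : 0 < z.re) :
    ‖cor κ ε z‖ ≤ ‖κ‖ * ε ^ 2 / ‖z‖ := by sorry

theorem norm_cor'_le (κ : ℂ) {ε : ℝ} (hε : 0 < ε) {z : ℂ} (hz : 0 ≤ z.re) :
    ‖cor' κ ε z‖ ≤ ‖κ‖ := by sorry

theorem norm_cor'_far (κ : ℂ) {ε : ℝ} (hε : 0 < ε) {z : ℂ} (hz : 0 < z.re) :
    ‖cor' κ ε z‖ ≤ ‖κ‖ * ε ^ 2 / ‖z‖ ^ 2 := by sorry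

theorem norm_cor'_add (κ : ℂ) {ε : ℝ} (hε : 0 < ε) {z : ℂ} (hz : 0 ≤ z.re) :
    ‖cor' κ ε z + κ‖ ≤ 8 * ‖κ‖ / ε * ‖z‖ := by sorry

/-- V2 (helper50; file `Pool/Agent/H50/IH/Value.lean`). -/
theorem value_sharp {C₁ : ℝ} (hC₁ : 100 ≤ C₁) {δ : ℝ} (hδ : δ ≤ 1 / (10000 * C₁ ^ 4))
    {b φ g : ℕ → ℂ → ℂ} {ζ : ℕ → ℂ} {a s : ℕ → ℝ} (S : SeqV C₁ δ b φ g ζ a s)
    (Bt G : ℂ → ℂ) (k : ℂ)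
    (hclose : ∀ n z, 0 < z.re → y a s n / 2 ≤ ‖z‖ → ‖z‖ ≤ 2 * C₁ * s n →
      ‖Bt z - k - K b n - b n (z / (s n : ℂ))‖ ≤ a n / (1000 * C₁ ^ 3))
    (hreg : ∀ n z, 0 < z.re → y a s (n + 1) / 2 ≤ ‖z‖ → ‖z‖ ≤ y a s n →
      ‖Bt z - k - K b (n + 1) - b (n + 1) (z / (s (n + 1) : ℂ))‖ ≤ 1)
    (hG : ∀ z : ℂ, 0 < z.re → ‖z‖ < 1 → HasDerivAt G (exp (Bt z)) z) :
    ∃ w : ℂ, ∀ n, ∃ z : ℂ, 0 < z.re ∧ ‖z‖ ≤ 2 * C₁ * s n ∧ G z = w := by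
  sorry

end Pool.Agent.H50.IH.Plan
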